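import Mathlib

namespace Pool.Agent.H.MP_6f21ce_an

open Nat Filter

noncomputable def tm (r j : ℕ) : ℝ := if j % 2 = r then 1 / (2:ℝ) ^ (j !) else 0

noncomputable def num (r : ℕ) : ℝ := ∑' j, tm r j

noncomputable def tail (r m : ℕ) : ℝ := ∑' i, tm r (i + (m + 1))

def P (r m : ℕ) : ℕ := ∑ j ∈ Finset.range (m + 1), if j % 2 = r then 2 ^ ((m !) - (j !)) else 0

lemma tm_nonneg (r j : ℕ) : 0 ≤ tm r j := by
  unfold tm; split_ifs <;> positivity

lemma tm_le (r j : ℕ) : tm r j ≤ 1 / (2:ℝ) ^ (j !) := by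
  unfold tm; split_ifs
  · exact le_rfl
  · positivity

lemma summable_tm (r : ℕ) : Summable (tm r) :=
  Summable.of_nonneg_of_le (tm_nonneg r) (tm_le r) (LiouvilleNumber.summable (by norm_num))

lemma num_eq (r m : ℕ) : num r = (∑ j ∈ Finset.range (m + 1), tm r j) + tail r m :=
  ((summable_tm r).sum_add_tsum_nat_add (m + 1)).symm

lemma tail_nonneg (r m : ℕ) : 0 ≤ tail r m := tsum_nonneg fun _ => tm_nonneg _ _

lemma tail_lt (r m : ℕ) : tail r m < 2 / (2:ℝ) ^ ((m + 1) !) := by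
  have h1 : tail r m ≤ LiouvilleNumber.remainder 2 m := by
    unfold tail LiouvilleNumber.remainder
    refine Summable.tsum_le_tsum (fun i => tm_le _ _) ?_ ?_
    · exact (summable_nat_add_iff (m + 1)).2 (summable_tm r)
    · exact LiouvilleNumber.remainder_summable (by norm_num) m
  have h2 := LiouvilleNumber.remainder_lt' m (m := 2) (by norm_num)
  have h3 : (1 - 1 / (2:ℝ))⁻¹ * (1 / 2 ^ (m + 1)!) = 2 / (2:ℝ) ^ ((m + 1) !) := by
    norm_num; ring
  linarith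

lemma tail_succ (r m : ℕ) : tail r m = tm r (m + 1) + tail r (m + 1) := by
  have h1 := num_eq r m
  have h2 := num_eq r (m + 1)
  rw [Finset.sum_range_succ _ (m + 1)] at h2
  linarith

lemma P_eq (r m : ℕ) : (P r m : ℝ) = 2 ^ (m !) * ∑ j ∈ Finset.range (m + 1), tm r j := by
  unfold P tm
  rw [Finset.mul_sum]
  push_cast
  refine Finset.sum_congr rfl fun j hj => ?_
  have hj' : j ! ≤ m ! := Nat.factorial_le (by have := Finset.mem_range.1 hj; omega)
  split_ifs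
  · rw [pow_sub₀ _ (by norm_num) hj']; ring
  · simp

lemma num_nonneg (r : ℕ) : 0 ≤ num r := tsum_nonneg fun _ => tm_nonneg _ _

lemma num_lt (r : ℕ) : num r < 3 / 2 := by
  have h1 := num_eq r 0
  have h2 := tail_lt r 0
  have h3 := tm_le r 0
  simp at h1 h2 h3
  norm_num at h3
  linarith

lemma num_mul (r m : ℕ) : 2 ^ (m !) * num r = P r m + 2 ^ (m !) * tail r m := by
  rw [P_eq, num_eq r m]; ring

lemma tail_small (r m : ℕ) : 2 ^ (m !) * tail r m < 2 / 2 ^ m := by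
  have h := tail_lt r m
  have h1 : m ! + m ≤ (m + 1)! := by
    rw [Nat.factorial_succ]
    have := Nat.factorial_pos m
    nlinarith
  have h2 : (2:ℝ) ^ (m !) * 2 ^ m ≤ 2 ^ ((m + 1)!) := by
    rw [← pow_add]; exact pow_le_pow_right₀ (by norm_num) h1
  have h3 : (0:ℝ) < 2 ^ (m !) := by positivity
  have h4 : (0:ℝ) < 2 ^ m := by positivity
  calc 2 ^ (m !) * tail r m < 2 ^ (m !) * (2 / (2:ℝ) ^ ((m + 1) !)) := by gcongr
    _ ≤ 2 ^ (m !) * (2 / ((2:ℝ) ^ (m !) * 2 ^ m)) := by gcongr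
    _ = 2 / 2 ^ m := by field_simp

lemma indep (A B C : ℤ) (h : (A:ℝ) + B * num 0 + C * num 1 = 0) : A = 0 ∧ B = 0 ∧ C = 0 := by
  obtain ⟨m0, hm0⟩ : ∃ m0 : ℕ, 2 * (|(B:ℝ)| + |(C:ℝ)|) + 1 < 2 ^ m0 :=
    pow_unbounded_of_one_lt _ (by norm_num)
  have key : ∀ m, m0 ≤ m → (B:ℝ) * tail 0 m + C * tail 1 m = 0 := by
    intro m hm
    have e1 := num_mul 0 m
    have e2 := num_mul 1 m
    have h3 : (0:ℝ) < 2 ^ (m !) := by positivity
    have hz : (2:ℝ) ^ (m !) * (B * tail 0 m + C * tail 1 m)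
        = ((-(2 ^ (m !) * A + B * P 0 m + C * P 1 m) : ℤ) : ℝ) := by
      push_cast
      linear_combination (2:ℝ) ^ (m !) * h - B * e1 - C * e2
    have t0 := tail_small 0 m
    have t1 := tail_small 1 m
    have n0 := mul_nonneg h3.le (tail_nonneg 0 m)
    have n1 := mul_nonneg h3.le (tail_nonneg 1 m)
    have hp : (2:ℝ) ^ m0 ≤ 2 ^ m := pow_le_pow_right₀ (by norm_num) hm
    have h4 : (0:ℝ) < 2 ^ m := by positivity
    have hb : |(2:ℝ) ^ (m !) * (B * tail 0 m + C * tail 1 m)| < 1 := by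
      have e : (2:ℝ) ^ (m !) * (B * tail 0 m + C * tail 1 m)
          = B * (2 ^ (m !) * tail 0 m) + C * (2 ^ (m !) * tail 1 m) := by ring
      rw [e]
      have a1 : |(B:ℝ) * (2 ^ (m !) * tail 0 m)| ≤ |(B:ℝ)| * (2 / 2 ^ m) := by
        rw [abs_mul, abs_of_nonneg n0]; gcongr
      have a2 : |(C:ℝ) * (2 ^ (m !) * tail 1 m)| ≤ |(C:ℝ)| * (2 / 2 ^ m) := by
        rw [abs_mul, abs_of_nonneg n1]; gcongr
      have a3 : |(B:ℝ)| * (2 / 2 ^ m) + |(C:ℝ)| * (2 / 2 ^ m) < 1 := by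
        rw [← add_mul, mul_div_assoc', div_lt_one h4]; linarith
      exact lt_of_le_of_lt ((abs_add_le _ _).trans (add_le_add a1 a2)) a3
    rw [hz] at hb
    have hb' : |(-(2 ^ (m !) * A + B * P 0 m + C * P 1 m) : ℤ)| < 1 := by exact_mod_cast hb
    have hb'' : (-(2 ^ (m !) * A + B * P 0 m + C * P 1 m) : ℤ) = 0 := Int.abs_lt_one_iff.1 hb'
    rw [hb''] at hz
    simpa using hz
  have step : ∀ m, m0 ≤ m → (B:ℝ) * tm 0 (m + 1) + C * tm 1 (m + 1) = 0 := by
    intro m hm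
    have k1 := key m hm
    have k2 := key (m + 1) (by omega)
    rw [tail_succ 0 m, tail_succ 1 m] at k1
    linarith
  have s1 := step (2 * m0) (by omega)
  have s2 := step (2 * m0 + 1) (by omega)
  have q1 : (2 * m0 + 1) % 2 = 1 := by omega
  have q2 : (2 * m0 + 1 + 1) % 2 = 0 := by omega
  simp [tm, q1, q2] at s1 s2
  subst s1 s2
  simpa using h

lemma approx (K n : ℕ) (hn : K ! < n) :
    ∃ r e A : ℕ, r < 2 ∧ e < n ∧ A < 2 ^ n ∧ |2 ^ e * num r - A| < 1 / 2 ^ (K * n) := by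
  have hex : ∃ m : ℕ, n ≤ m ! := ⟨n, Nat.self_le_factorial n⟩
  classical
  have h1 := Nat.find_spec hex
  have h2 : K < Nat.find hex := by
    by_contra hc
    have := Nat.factorial_le (not_lt.1 hc)
    omega
  obtain ⟨m, hm⟩ : ∃ m, Nat.find hex = m + 1 := ⟨Nat.find hex - 1, by omega⟩
  have h3 : ¬ n ≤ m ! := Nat.find_min hex (by omega)
  rw [hm] at h1 h2
  have e1 := num_mul (m % 2) m
  have h0 : (0:ℝ) < 2 ^ (m !) := by positivity
  have n0 := mul_nonneg h0.le (tail_nonneg (m % 2) m)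
  refine ⟨m % 2, m !, P (m % 2) m, Nat.mod_lt _ (by norm_num), by omega, ?_, ?_⟩
  · have a1 : (P (m % 2) m : ℝ) < 2 ^ (m !) * 2 := by
      have := num_lt (m % 2)
      nlinarith
    have a2 : (2:ℝ) ^ (m !) * 2 ≤ 2 ^ n := by
      rw [← pow_succ]; exact pow_le_pow_right₀ (by norm_num) (by omega)
    have : (P (m % 2) m : ℝ) < 2 ^ n := by linarith
    exact_mod_cast this
  · have e2 : 2 ^ (m !) * num (m % 2) - P (m % 2) m = 2 ^ (m !) * tail (m % 2) m := by linarith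
    rw [e2, abs_of_nonneg n0, tail_succ]
    have z : tm (m % 2) (m + 1) = 0 := by
      unfold tm; rw [if_neg (by omega)]
    rw [z, zero_add]
    have h := tail_lt (m % 2) (m + 1)
    have h5 : m ! + 1 + K * n ≤ (m + 1 + 1)! := by
      have f1 : m ! ≤ (m + 1)! := Nat.factorial_le (by omega)
      have f2 := Nat.factorial_pos (m + 1)
      have f3 : K * n ≤ m * (m + 1)! := Nat.mul_le_mul (by omega) h1
      rw [Nat.factorial_succ (m + 1)]
      nlinarith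
    have h6 : (2:ℝ) ^ (m !) * 2 * 2 ^ (K * n) ≤ 2 ^ ((m + 1 + 1)!) := by
      rw [← pow_succ, ← pow_add]; exact pow_le_pow_right₀ (by norm_num) h5
    have h7 : (0:ℝ) < 2 ^ (K * n) := by positivity
    calc 2 ^ (m !) * tail (m % 2) (m + 1) < 2 ^ (m !) * (2 / (2:ℝ) ^ ((m + 1 + 1) !)) := by gcongr
      _ ≤ 2 ^ (m !) * (2 / ((2:ℝ) ^ (m !) * 2 * 2 ^ (K * n))) := by gcongr
      _ = 1 / 2 ^ (K * n) := by field_simp

end Pool.Agent.H.MP_6f21ce_an
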