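import Mathlib

namespace Pool.Agent.H.MP_6f21ce_an

open Set Filter Topology

structure Good (f : ℝ → ℝ) (a b c d : ℝ) : Prop where
  ha : 0 ≤ a
  hb : 0 ≤ b
  hc : 0 ≤ c
  had : a < d
  hdet : 0 < a * d - b * c
  hdet2 : 2 * (a * d - b * c) ≤ d ^ 2
  heq : ∀ x ∈ Icc (0:ℝ) 1, f x = (a * x + b) / (c * x + d)
  hmaps : MapsTo f (Icc (0:ℝ) 1) (Icc (0:ℝ) 1)

noncomputable def yv (a b c d : ℝ) : ℝ := -2 * c / ((d - a) + √((d - a) ^ 2 + 4 * b * c))

lemma yv_nonpos {a b c d : ℝ} (hc : 0 ≤ c) (had : a < d) : yv a b c d ≤ 0 := by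
  unfold yv
  have := Real.sqrt_nonneg ((d - a) ^ 2 + 4 * b * c)
  exact div_nonpos_of_nonpos_of_nonneg (by linarith) (by linarith)

lemma yv_root {a b c d : ℝ} (hb : 0 ≤ b) (hc : 0 ≤ c) (had : a < d) :
    c + (d - a) * yv a b c d - b * (yv a b c d) ^ 2 = 0 := by
  unfold yv
  have h0 := Real.sqrt_nonneg ((d - a) ^ 2 + 4 * b * c)
  have h1 := Real.sq_sqrt (show 0 ≤ (d - a) ^ 2 + 4 * b * c by positivity)
  generalize √((d - a) ^ 2 + 4 * b * c) = S at *
  have h2 : (d - a) + S ≠ 0 := by linarith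
  field_simp
  linear_combination c * h1

lemma root_unique {a b c d y y' : ℝ} (hb : 0 ≤ b) (had : a < d) (hy : y ≤ 0) (hy' : y' ≤ 0)
    (h1 : c + (d - a) * y - b * y ^ 2 = 0) (h2 : c + (d - a) * y' - b * y' ^ 2 = 0) : y = y' := by
  have h3 : (y - y') * ((d - a) - b * (y + y')) = 0 := by linear_combination h1 - h2
  have h4 : 0 < (d - a) - b * (y + y') := by nlinarith
  rcases mul_eq_zero.1 h3 with h | h
  · linarith
  · linarith

namespace Good

variable {f f' : ℝ → ℝ} {a b c d a' b' c' d' : ℝ}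

lemma den (h : Good f a b c d) {x : ℝ} (hx : x ∈ Icc (0:ℝ) 1) : d ≤ c * x + d := by
  have := mul_nonneg h.hc hx.1; linarith

lemma dpos (h : Good f a b c d) : 0 < d := lt_of_le_of_lt h.ha h.had

lemma sub (h : Good f a b c d) {x z : ℝ} (hx : x ∈ Icc (0:ℝ) 1) (hz : z ∈ Icc (0:ℝ) 1) :
    f x - f z = (a * d - b * c) / ((c * x + d) * (c * z + d)) * (x - z) := by
  have h1 := h.den hx
  have h2 := h.den hz
  have h3 := h.dpos
  rw [h.heq x hx, h.heq z hz]
  have h4 : c * x + d ≠ 0 := by linarith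
  have h5 : c * z + d ≠ 0 := by linarith
  rw [div_sub_div _ _ h4 h5, div_mul_eq_mul_div]
  congr 1
  ring

lemma lip (h : Good f a b c d) {x z : ℝ} (hx : x ∈ Icc (0:ℝ) 1) (hz : z ∈ Icc (0:ℝ) 1) :
    |f x - f z| ≤ 1 / 2 * |x - z| := by
  have h1 := h.den hx
  have h2 := h.den hz
  have h3 := h.dpos
  have h4 : d ^ 2 ≤ (c * x + d) * (c * z + d) := by nlinarith
  have h5 : 0 < (c * x + d) * (c * z + d) := by nlinarith
  have h6 : (a * d - b * c) / ((c * x + d) * (c * z + d)) ≤ 1 / 2 := by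
    rw [div_le_iff₀ h5]; linarith [h.hdet2]
  rw [h.sub hx hz, abs_mul, abs_of_pos (div_pos h.hdet h5)]
  gcongr

lemma inj (h : Good f a b c d) : InjOn f (Icc (0:ℝ) 1) := by
  intro x hx z hz e
  have h1 := h.den hx
  have h2 := h.den hz
  have h3 := h.dpos
  have h5 : 0 < (c * x + d) * (c * z + d) := by nlinarith
  have h6 := h.sub hx hz
  rw [e, sub_self] at h6
  rcases mul_eq_zero.1 h6.symm with h7 | h7
  · exact absurd h7 (div_pos h.hdet h5).ne'
  · linarith

lemma contOn (h : Good f a b c d) : ContinuousOn f (Icc (0:ℝ) 1) := by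
  refine ContinuousOn.congr ?_ h.heq
  refine ContinuousOn.div (by fun_prop) (by fun_prop) fun x hx => ?_
  have h1 := h.den hx
  have h3 := h.dpos
  linarith

lemma fix (h : Good f a b c d) : ∃ p ∈ Icc (0:ℝ) 1, f p = p := by
  obtain ⟨p, hp, e⟩ := exists_mem_Icc_isFixedPt_of_mapsTo h.contOn (by norm_num) h.hmaps
  exact ⟨p, hp, e⟩

lemma iter_mem (h : Good f a b c d) {x : ℝ} (hx : x ∈ Icc (0:ℝ) 1) (n : ℕ) :
    f^[n] x ∈ Icc (0:ℝ) 1 := (h.hmaps.iterate n) hx

lemma iter_tendsto (h : Good f a b c d) {x p : ℝ} (hx : x ∈ Icc (0:ℝ) 1) (hp : p ∈ Icc (0:ℝ) 1)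
    (e : f p = p) : Tendsto (fun n => f^[n] x) atTop (𝓝 p) := by
  have hb : ∀ n : ℕ, |f^[n] x - p| ≤ (1 / 2) ^ n * |x - p| := by
    intro n
    induction n with
    | zero => simp
    | succ n ih =>
      rw [Function.iterate_succ_apply']
      have := h.lip (h.iter_mem hx n) hp
      rw [e] at this
      rw [pow_succ]
      linarith
  rw [tendsto_iff_dist_tendsto_zero]
  have ht : Tendsto (fun n : ℕ => (1 / 2 : ℝ) ^ n * |x - p|) atTop (𝓝 (0 * |x - p|)) :=
    (tendsto_pow_atTop_nhds_zero_of_lt_one (by norm_num) (by norm_num)).mul_const _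
  rw [zero_mul] at ht
  exact squeeze_zero (fun _ => dist_nonneg) (fun n => by rw [Real.dist_eq]; exact hb n) ht

lemma overlap (h : Good f a b c d) (h' : Good f' a' b' c' d')
    (e : ∀ x ∈ Icc (0:ℝ) 1, f x = f' x) : yv a b c d = yv a' b' c' d' := by
  have key : ∀ x ∈ Icc (0:ℝ) 1, (a * x + b) * (c' * x + d') = (a' * x + b') * (c * x + d) := by
    intro x hx
    have e1 := e x hx
    rw [h.heq x hx, h'.heq x hx] at e1
    have h1 := h.den hx
    have h2 := h'.den hx
    have h3 := h.dpos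
    have h4 := h'.dpos
    rw [div_eq_div_iff (by linarith) (by linarith)] at e1
    exact e1
  have k0 := key 0 (by norm_num)
  have k1 := key 1 (by norm_num)
  have k2 := key (1 / 2) (by norm_num)
  have r := yv_root h.hb h.hc h.had
  have r' := yv_root h'.hb h'.hc h'.had
  have n := yv_nonpos (b := b) h.hc h.had
  have n' := yv_nonpos (b := b') h'.hc h'.had
  generalize yv a b c d = y at *
  have p0 : b * d' - b' * d = 0 := by linear_combination k0
  have p2 : a * c' - a' * c = 0 := by linear_combination 2 * k1 - 4 * k2 + 2 * k0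
  have p1 : a * d' + b * c' - a' * d - b' * c = 0 := by linear_combination 4 * k2 - k1 - 3 * k0
  have nz : a + b * y ≠ 0 := by
    intro hz
    have := h.hdet
    have h9 : a * d - b * c = 0 := by linear_combination d * hz - b * r - b * y * hz
    linarith
  have r2 : (a + b * y) * (c' + (d' - a') * y - b' * y ^ 2) = 0 := by
    linear_combination p2 + y * p1 + y ^ 2 * p0 + (a' + b' * y) * r
  exact root_unique h'.hb h'.had n n' ((mul_eq_zero.1 r2).resolve_left nz) r'

lemma deriv_eq (h : Good f a b c d) {g : ℝ → ℝ} (hg : AnalyticOnNhd ℝ g (Icc (0:ℝ) 1))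
    {l t : ℝ} (e : ∀ x ∈ Icc (0:ℝ) 1, g (f x) = l * g x + t) {x : ℝ} (hx : x ∈ Icc (0:ℝ) 1) :
    deriv g (f x) * ((a * d - b * c) / (c * x + d) ^ 2) = l * deriv g x := by
  have h1 := h.den hx
  have h3 := h.dpos
  have h4 : c * x + d ≠ 0 := by linarith
  have d1 : HasDerivAt (fun x => (a * x + b) / (c * x + d)) ((a * d - b * c) / (c * x + d) ^ 2) x := by
    have u1 : HasDerivAt (fun x => a * x + b) a x := by
      simpa using ((hasDerivAt_id x).const_mul a).add_const b
    have u2 : HasDerivAt (fun x => c * x + d) c x := by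
      simpa using ((hasDerivAt_id x).const_mul c).add_const d
    have u3 := u1.div u2 h4
    have : (a * (c * x + d) - (a * x + b) * c) / (c * x + d) ^ 2
        = (a * d - b * c) / (c * x + d) ^ 2 := by ring
    rw [this] at u3
    exact u3
  have d2 : HasDerivWithinAt f ((a * d - b * c) / (c * x + d) ^ 2) (Icc (0:ℝ) 1) x :=
    d1.hasDerivWithinAt.congr h.heq (h.heq x hx)
  have d3 : HasDerivAt g (deriv g (f x)) (f x) :=
    (hg _ (h.hmaps hx)).differentiableAt.hasDerivAt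
  have d4 := d3.comp_hasDerivWithinAt x d2
  have d5 : HasDerivAt g (deriv g x) x := (hg _ hx).differentiableAt.hasDerivAt
  have d6 : HasDerivWithinAt (g ∘ f) (l * deriv g x) (Icc (0:ℝ) 1) x :=
    ((d5.const_mul l).add_const t).hasDerivWithinAt.congr e (e x hx)
  exact (uniqueDiffOn_Icc (by norm_num : (0:ℝ) < 1) x hx).eq_deriv _ d4 d6

lemma const (h : Good f a b c d) {g : ℝ → ℝ} (hg : AnalyticOnNhd ℝ g (Icc (0:ℝ) 1))
    {l t : ℝ} (e : ∀ x ∈ Icc (0:ℝ) 1, g (f x) = l * g x + t) {p : ℝ} (hp : p ∈ Icc (0:ℝ) 1)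
    (hfp : f p = p) (hne : deriv g p ≠ 0) :
    ∃ C : ℝ, C ≠ 0 ∧ ∀ x ∈ Icc (0:ℝ) 1, deriv g x * (1 - x * yv a b c d) ^ 2 = C := by
  have r := yv_root h.hb h.hc h.had
  have n := yv_nonpos (b := b) h.hc h.had
  generalize yv a b c d = y at *
  have step : ∀ x ∈ Icc (0:ℝ) 1, deriv g (f x) * (1 - f x * y) ^ 2 * (a * d - b * c)
      = l * (d - b * y) ^ 2 * (deriv g x * (1 - x * y) ^ 2) := by
    intro x hx
    have h1 := h.den hx
    have h3 := h.dpos
    have h4 : c * x + d ≠ 0 := by linarith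
    have e1 := h.deriv_eq hg e hx
    have e2 : 1 - f x * y = (d - b * y) * (1 - x * y) / (c * x + d) := by
      rw [h.heq x hx, eq_div_iff h4, sub_mul, div_mul_eq_mul_div, div_mul_cancel₀ _ h4]
      linear_combination x * r
    rw [e2]
    have : deriv g (f x) * ((d - b * y) * (1 - x * y) / (c * x + d)) ^ 2 * (a * d - b * c)
      = deriv g (f x) * ((a * d - b * c) / (c * x + d) ^ 2) * ((d - b * y) * (1 - x * y)) ^ 2 := by
      field_simp
    rw [this, e1]; ring
  have hp1 : 0 < 1 - p * y := by nlinarith [hp.1]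
  have hC : deriv g p * (1 - p * y) ^ 2 ≠ 0 := mul_ne_zero hne (by positivity)
  have s0 := step p hp
  rw [hfp] at s0
  have s1 : l * (d - b * y) ^ 2 = a * d - b * c := by
    apply mul_right_cancel₀ hC
    linarith
  have step2 : ∀ x ∈ Icc (0:ℝ) 1, deriv g (f x) * (1 - f x * y) ^ 2
      = deriv g x * (1 - x * y) ^ 2 := by
    intro x hx
    have := step x hx
    rw [s1] at this
    apply mul_right_cancel₀ h.hdet.ne'
    linarith
  refine ⟨_, hC, fun x hx => ?_⟩
  have it : ∀ n : ℕ, deriv g (f^[n] x) * (1 - f^[n] x * y) ^ 2 = deriv g x * (1 - x * y) ^ 2 := by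
    intro n
    induction n with
    | zero => simp
    | succ n ih => rw [Function.iterate_succ_apply', step2 _ (h.iter_mem hx n), ih]
  have c1 : ContinuousAt (fun x => deriv g x * (1 - x * y) ^ 2) p :=
    ((hg p hp).deriv.continuousAt).mul (by fun_prop)
  have t1 := c1.tendsto.comp (h.iter_tendsto hx hp hfp)
  have t2 : (fun x => deriv g x * (1 - x * y) ^ 2) ∘ (fun n => f^[n] x)
      = fun _ => deriv g x * (1 - x * y) ^ 2 := funext it
  rw [t2] at t1
  exact tendsto_nhds_unique tendsto_const_nhds t1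

lemma zero (h : Good f a b c d) {g : ℝ → ℝ} (hg : AnalyticOnNhd ℝ g (Icc (0:ℝ) 1))
    (hi : InjOn g (Icc (0:ℝ) 1))
    {l t : ℝ} (e : ∀ x ∈ Icc (0:ℝ) 1, g (f x) = l * g x + t) {p q : ℝ} (hp : p ∈ Icc (0:ℝ) 1)
    (hfp : f p = p) (hq : q ∈ Icc (0:ℝ) 1) (hz : deriv g q = 0) : q = p := by
  by_contra hne
  have it : ∀ n : ℕ, deriv g (f^[n] q) = 0 ∧ f^[n] q ≠ p := by
    intro n
    induction n with
    | zero => exact ⟨hz, hne⟩
    | succ n ih =>
      rw [Function.iterate_succ_apply']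
      have hx := h.iter_mem hq n
      have e1 := h.deriv_eq hg e hx
      rw [ih.1, mul_zero] at e1
      have h1 := h.den hx
      have h3 := h.dpos
      have h5 : 0 < (a * d - b * c) / (c * f^[n] q + d) ^ 2 :=
        div_pos h.hdet (pow_pos (by linarith) 2)
      refine ⟨(mul_eq_zero.1 e1).resolve_right h5.ne', fun hh => ih.2 (h.inj hx hp ?_)⟩
      rw [hh, hfp]
  have t1 : Tendsto (fun n => f^[n] q) atTop (𝓝[≠] p) :=
    tendsto_nhdsWithin_iff.2 ⟨h.iter_tendsto hq hp hfp, Eventually.of_forall fun n => (it n).2⟩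
  have fr : ∃ᶠ z in 𝓝[≠] p, deriv g z = 0 :=
    t1.frequently (Frequently.of_forall fun n => (it n).1)
  have z0 := hg.deriv.eqOn_zero_of_preconnected_of_frequently_eq_zero isPreconnected_Icc hp fr
  obtain ⟨w, hw, ew⟩ := exists_deriv_eq_slope g (show (0:ℝ) < 1 by norm_num) hg.continuousOn
    (fun x hx => (hg x (Ioo_subset_Icc_self hx)).differentiableAt.differentiableWithinAt)
  rw [z0 (Ioo_subset_Icc_self hw)] at ew
  have : g 1 = g 0 := by simp at ew; linarith
  have := hi (by norm_num) (by norm_num) this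
  norm_num at this

lemma nosub (h : Good f a b c d) (h' : Good f' a' b' c' d') {g : ℝ → ℝ}
    (hg : AnalyticOnNhd ℝ g (Icc (0:ℝ) 1)) (hi : InjOn g (Icc (0:ℝ) 1)) {l t l' t' : ℝ}
    (e : ∀ x ∈ Icc (0:ℝ) 1, g (f x) = l * g x + t)
    (e' : ∀ x ∈ Icc (0:ℝ) 1, g (f' x) = l' * g x + t') :
    yv a b c d = yv a' b' c' d' ∨ ∀ x ∈ Icc (0:ℝ) 1, f (f' x) = f' (f x) := by
  obtain ⟨p, hp, hfp⟩ := h.fix
  obtain ⟨p', hp', hfp'⟩ := h'.fix
  by_cases z : deriv g p = 0
  · right
    have pp := h'.zero hg hi e' hp' hfp' hp z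
    subst pp
    intro x hx
    apply hi (h.hmaps (h'.hmaps hx)) (h'.hmaps (h.hmaps hx))
    have e1 := e p hp
    have e2 := e' p hp
    rw [hfp] at e1
    rw [hfp'] at e2
    rw [e _ (h'.hmaps hx), e' _ (h.hmaps hx), e x hx, e' x hx]
    linear_combination (1 - l) * e2 - (1 - l') * e1
  · left
    obtain ⟨C, hC, k⟩ := h.const hg e hp hfp z
    have z' : deriv g p' ≠ 0 := by
      intro hz
      have := k p' hp'
      rw [hz, zero_mul] at this
      exact hC this.symm
    obtain ⟨C', hC', k'⟩ := h'.const hg e' hp' hfp' z'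
    have n := yv_nonpos (b := b) h.hc h.had
    have n' := yv_nonpos (b := b') h'.hc h'.had
    have a0 := k 0 (by norm_num)
    have a1 := k 1 (by norm_num)
    have b0 := k' 0 (by norm_num)
    have b1 := k' 1 (by norm_num)
    generalize yv a b c d = y at *
    generalize yv a' b' c' d' = y' at *
    simp at a0 a1 b0 b1
    have g1 : deriv g 1 ≠ 0 := by
      intro hz; rw [hz, zero_mul] at a1; exact hC a1.symm
    have s : (1 - y) ^ 2 = (1 - y') ^ 2 := by
      apply mul_left_cancel₀ g1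
      rw [a1, b1, ← a0, ← b0]
    have := (pow_left_inj₀ (by linarith) (by linarith) (by norm_num : (2:ℕ) ≠ 0)).1 s
    linarith

end Good

end Pool.Agent.H.MP_6f21ce_an
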