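import Pool.Agent.H.MP_6f21ce_an.A
import Pool.Agent.H.MP_6f21ce_an.B

namespace Pool.Agent.H.MP_6f21ce_an

open Set Filter Topology

variable {ι : Type*}

noncomputable def gen (δ β : ι → ℝ) (i : ι) (x : ℝ) : ℝ := (x + β i) / (δ i * x + 2)

def wm (f : ι → ℝ → ℝ) (w : List ι) : ℝ → ℝ := w.foldr (fun i g => f i ∘ g) id

lemma wm_append (f : ι → ℝ → ℝ) (u v : List ι) : wm f (u ++ v) = wm f u ∘ wm f v := by
  induction u with
  | nil => rfl
  | cons i u ih =>
    have : wm f (i :: (u ++ v)) = f i ∘ wm f (u ++ v) := rfl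
    rw [List.cons_append, this, ih]; rfl

noncomputable def mat (δ β : ι → ℝ) : List ι → ℝ × ℝ × ℝ × ℝ
  | [] => (1, 0, 0, 1)
  | i :: w => ((mat δ β w).1 + β i * (mat δ β w).2.2.1,
      (mat δ β w).2.1 + β i * (mat δ β w).2.2.2,
      δ i * (mat δ β w).1 + 2 * (mat δ β w).2.2.1,
      δ i * (mat δ β w).2.1 + 2 * (mat δ β w).2.2.2)

noncomputable def ma (δ β : ι → ℝ) (w : List ι) : ℝ := (mat δ β w).1
noncomputable def mb (δ β : ι → ℝ) (w : List ι) : ℝ := (mat δ β w).2.1
noncomputable def mc (δ β : ι → ℝ) (w : List ι) : ℝ := (mat δ β w).2.2.1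
noncomputable def md (δ β : ι → ℝ) (w : List ι) : ℝ := (mat δ β w).2.2.2

section
variable (δ β : ι → ℝ) (i : ι) (w : List ι)
@[simp] lemma ma_nil : ma δ β [] = 1 := rfl
@[simp] lemma mb_nil : mb δ β [] = 0 := rfl
@[simp] lemma mc_nil : mc δ β [] = 0 := rfl
@[simp] lemma md_nil : md δ β [] = 1 := rfl
lemma ma_cons : ma δ β (i :: w) = ma δ β w + β i * mc δ β w := rfl
lemma mb_cons : mb δ β (i :: w) = mb δ β w + β i * md δ β w := rfl
lemma mc_cons : mc δ β (i :: w) = δ i * ma δ β w + 2 * mc δ β w := rfl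
lemma md_cons : md δ β (i :: w) = δ i * mb δ β w + 2 * md δ β w := rfl
end

structure Par (δ β : ι → ℝ) : Prop where
  d0 : ∀ i, 0 ≤ δ i
  d1 : ∀ i, δ i ≤ 1 / 4
  b0 : ∀ i, 0 ≤ β i
  b1 : ∀ i, β i ≤ 1

namespace Par
variable {δ β : ι → ℝ}

lemma basic (h : Par δ β) (w : List ι) : 0 ≤ ma δ β w ∧ 0 ≤ mb δ β w ∧ 0 ≤ mc δ β w ∧
    2 ^ w.length ≤ md δ β w ∧ 0 < ma δ β w * md δ β w - mb δ β w * mc δ β w ∧
    ma δ β w * md δ β w - mb δ β w * mc δ β w ≤ 2 ^ w.length := by
  induction w with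
  | nil => simp
  | cons i w ih =>
    obtain ⟨h1, h2, h3, h4, h5, h6⟩ := ih
    have d0 := h.d0 i
    have d1 := h.d1 i
    have b0 := h.b0 i
    have b1 := h.b1 i
    have h7 : (0:ℝ) < 2 ^ w.length := by positivity
    have h8 : 0 ≤ md δ β w := by linarith
    have e : ma δ β (i :: w) * md δ β (i :: w) - mb δ β (i :: w) * mc δ β (i :: w)
      = (2 - β i * δ i) * (ma δ β w * md δ β w - mb δ β w * mc δ β w) := by
      rw [ma_cons, mb_cons, mc_cons, md_cons]; ring
    have q0 : 0 ≤ β i * δ i := mul_nonneg b0 d0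
    have q1 : β i * δ i ≤ 1 := by nlinarith
    rw [e, ma_cons, mb_cons, mc_cons, md_cons, List.length_cons, pow_succ]
    refine ⟨by positivity, by positivity, by positivity, ?_, ?_, ?_⟩
    · have := mul_nonneg d0 h2; linarith
    · exact mul_pos (by linarith) h5
    · nlinarith

lemma gen_mem (h : Par δ β) (i : ι) {x : ℝ} (hx : x ∈ Icc (0:ℝ) 1) :
    gen δ β i x ∈ Icc (0:ℝ) 1 := by
  have d0 := h.d0 i
  have b0 := h.b0 i
  have b1 := h.b1 i
  have h1 := mul_nonneg d0 hx.1
  have h2 := hx.1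
  have h3 := hx.2
  unfold gen
  constructor
  · positivity
  · rw [div_le_one (by linarith)]; linarith

lemma form (h : Par δ β) (w : List ι) {x : ℝ} (hx : x ∈ Icc (0:ℝ) 1) :
    wm (gen δ β) w x = (ma δ β w * x + mb δ β w) / (mc δ β w * x + md δ β w) ∧
      wm (gen δ β) w x ∈ Icc (0:ℝ) 1 := by
  induction w with
  | nil => exact ⟨by simp [wm], hx⟩
  | cons i w ih =>
    have e : wm (gen δ β) (i :: w) x = gen δ β i (wm (gen δ β) w x) := rfl
    refine ⟨?_, e ▸ h.gen_mem i ih.2⟩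
    obtain ⟨h1, h2, h3, h4, -, -⟩ := h.basic w
    have h7 : (0:ℝ) < 2 ^ w.length := by positivity
    have h8 : 0 < mc δ β w * x + md δ β w := by
      have := mul_nonneg h3 hx.1; linarith
    rw [e, ih.1, ma_cons, mb_cons, mc_cons, md_cons]
    unfold gen
    generalize hD : mc δ β w * x + md δ β w = D at *
    have e1 : (ma δ β w * x + mb δ β w) / D + β i
        = ((ma δ β w + β i * mc δ β w) * x + (mb δ β w + β i * md δ β w)) / D := by
      rw [div_add' _ _ _ h8.ne', ← hD]; congr 1; ring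
    have e2 : δ i * ((ma δ β w * x + mb δ β w) / D) + 2
        = ((δ i * ma δ β w + 2 * mc δ β w) * x + (δ i * mb δ β w + 2 * md δ β w)) / D := by
      rw [mul_div_assoc', div_add' _ _ _ h8.ne', ← hD]; congr 1; ring
    rw [e1, e2, div_div_div_cancel_right₀ h8.ne']

lemma cone (h : Par δ β) (w : List ι) : ∀ X Y : ℝ, 0 ≤ X → X < Y →
    X * ma δ β w + Y * mc δ β w < X * mb δ β w + Y * md δ β w := by
  induction w with
  | nil => intro X Y _ h2; simpa using h2
  | cons i w ih =>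
    intro X Y h1 h2
    have d0 := h.d0 i
    have d1 := h.d1 i
    have b0 := h.b0 i
    have hY : 0 < Y := by linarith
    have := ih (X + Y * δ i) (X * β i + 2 * Y) (by positivity) (by nlinarith [mul_nonneg h1 b0])
    rw [ma_cons, mb_cons, mc_cons, md_cons]
    linarith

lemma good (h : Par δ β) {w : List ι} (hw : w ≠ []) :
    Good (wm (gen δ β) w) (ma δ β w) (mb δ β w) (mc δ β w) (md δ β w) := by
  obtain ⟨h1, h2, h3, h4, h5, h6⟩ := h.basic w
  have h7 : (2:ℝ) ≤ 2 ^ w.length := by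
    have : 1 ≤ w.length := List.length_pos_iff.2 hw
    simpa using pow_le_pow_right₀ (show (1:ℝ) ≤ 2 by norm_num) this
  refine ⟨h1, h2, h3, ?_, h5, by nlinarith, fun x hx => (h.form w hx).1,
    fun x hx => (h.form w hx).2⟩
  have f1 := h.form w (x := 1) (by norm_num)
  have f2 := f1.2.2
  rw [f1.1, div_le_one (by linarith)] at f2
  obtain ⟨i, w, rfl⟩ := List.exists_cons_of_ne_nil hw
  have d0 := h.d0 i
  have d1 := h.d1 i
  have b0 := h.b0 i
  have c := h.cone w (1 + δ i) (β i + 2) (by linarith) (by linarith)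
  rw [ma_cons, mb_cons, mc_cons, md_cons] at f2
  rw [ma_cons, md_cons]
  linarith

end Par

noncomputable def yw (δ β : ι → ℝ) (w : List ι) : ℝ :=
  yv (ma δ β w) (mb δ β w) (mc δ β w) (md δ β w)

lemma contDiff_mat (δ k : ι → ℝ) (w : List ι) :
    ContDiff ℝ ⊤ (fun s : ℝ => ma δ (fun i => k i * s) w) ∧
    ContDiff ℝ ⊤ (fun s : ℝ => mb δ (fun i => k i * s) w) ∧
    ContDiff ℝ ⊤ (fun s : ℝ => mc δ (fun i => k i * s) w) ∧
    ContDiff ℝ ⊤ (fun s : ℝ => md δ (fun i => k i * s) w) := by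
  induction w with
  | nil => simp only [ma_nil, mb_nil, mc_nil, md_nil]; exact ⟨contDiff_const, contDiff_const,
      contDiff_const, contDiff_const⟩
  | cons i w ih =>
    obtain ⟨h1, h2, h3, h4⟩ := ih
    simp only [ma_cons, mb_cons, mc_cons, md_cons]
    refine ⟨?_, ?_, ?_, ?_⟩ <;> fun_prop

lemma analytic_yw (δ k : ι → ℝ) (hk : ∀ s ∈ Icc (0:ℝ) 1, Par δ (fun i => k i * s))
    {w : List ι} (hw : w ≠ []) :
    AnalyticOnNhd ℝ (fun s : ℝ => yw δ (fun i => k i * s) w) (Icc (0:ℝ) 1) := by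
  intro s hs
  obtain ⟨h1, h2, h3, h4⟩ := contDiff_mat δ k w
  have g := (hk s hs).good hw
  have a1 := g.hb
  have a2 := g.hc
  have a3 := g.had
  have a4 : 0 < (md δ (fun i => k i * s) w - ma δ (fun i => k i * s) w) ^ 2
      + 4 * mb δ (fun i => k i * s) w * mc δ (fun i => k i * s) w := by
    have : 0 < md δ (fun i => k i * s) w - ma δ (fun i => k i * s) w := by linarith
    positivity
  have k1 := h1.contDiffAt (x := s)
  have k2 := h2.contDiffAt (x := s)
  have k3 := h3.contDiffAt (x := s)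
  have k4 := h4.contDiffAt (x := s)
  apply ContDiffAt.analyticAt
  unfold yw yv
  refine ContDiffAt.div (by fun_prop) (ContDiffAt.add (by fun_prop) (ContDiffAt.sqrt (by fun_prop)
    a4.ne')) ?_
  have := Real.sqrt_nonneg ((md δ (fun i => k i * s) w - ma δ (fun i => k i * s) w) ^ 2
      + 4 * mb δ (fun i => k i * s) w * mc δ (fun i => k i * s) w)
  linarith

lemma mat_zero (δ β : ι → ℝ) (w : List ι) (hw : ∀ i ∈ w, β i = 0) :
    ma δ β w = 1 ∧ mb δ β w = 0 ∧ md δ β w = 2 ^ w.length := by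
  induction w with
  | nil => simp
  | cons i w ih =>
    obtain ⟨h1, h2, h3⟩ := ih fun j hj => hw j (List.mem_cons_of_mem _ hj)
    have h0 := hw i List.mem_cons_self
    rw [ma_cons, mb_cons, md_cons, h0, h1, h2, h3, List.length_cons, pow_succ]
    refine ⟨by ring, by ring, by ring⟩

lemma exists_sigma [Countable ι] (δ k : ι → ℝ) (hk : ∀ s ∈ Icc (0:ℝ) 1, Par δ (fun i => k i * s))
    (h0 : ∀ u v : List ι, u.length = v.length → mc δ (fun i => k i * 0) u = mc δ (fun i => k i * 0) v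
      → u = v) :
    ∃ s ∈ Ioc (0:ℝ) 1, ∀ u v : List ι, u.length = v.length → u ≠ v →
      yw δ (fun i => k i * s) u ≠ yw δ (fun i => k i * s) v := by
  have fin : ∀ p : List ι × List ι, ({s | s ∈ Icc (0:ℝ) 1 ∧ p.1.length = p.2.length ∧ p.1 ≠ p.2 ∧
      yw δ (fun i => k i * s) p.1 = yw δ (fun i => k i * s) p.2}).Countable := by
    rintro ⟨u, v⟩
    by_cases hl : u.length = v.length ∧ u ≠ v
    swap
    · refine Set.countable_empty.mono ?_
      rintro s ⟨-, h1, h2, -⟩
      exact hl ⟨h1, h2⟩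
    obtain ⟨hl, hne⟩ := hl
    have hu : u ≠ [] := by
      rintro rfl
      exact hne (List.length_eq_zero_iff.1 hl.symm).symm
    have hv : v ≠ [] := by
      rintro rfl
      exact hne (List.length_eq_zero_iff.1 hl)
    rcases (analytic_yw δ k hk hu).eqOn_or_eventually_ne_of_preconnected (analytic_yw δ k hk hv)
      isPreconnected_Icc with e | e
    · exfalso
      have e0 := e (show (0:ℝ) ∈ Icc (0:ℝ) 1 by norm_num)
      obtain ⟨u1, u2, u3⟩ := mat_zero δ (fun i => k i * 0) u (by simp)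
      obtain ⟨v1, v2, v3⟩ := mat_zero δ (fun i => k i * 0) v (by simp)
      have g := ((hk 0 (by norm_num)).good hv).had
      simp only [yw, yv] at e0
      rw [u1, u2, u3, v1, v2, v3, hl] at e0
      rw [v1, v3] at g
      have := Real.sqrt_nonneg (((2:ℝ) ^ v.length - 1) ^ 2)
      simp only [mul_zero, zero_mul, add_zero] at e0
      rw [div_left_inj' (by linarith)] at e0
      apply hne (h0 u v hl _)
      simp only [mul_zero]
      linarith
    · refine (isCompact_Icc.finite_sdiff_of_mem_codiscreteWithin e).countable.mono ?_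
      rintro s ⟨h1, -, -, h2⟩
      exact ⟨h1, fun h3 => h3 h2⟩
  have cnt := Set.countable_iUnion fin
  have m0 := cnt.measure_zero MeasureTheory.volume
  by_contra hc
  push Not at hc
  have sub : Ioc (0:ℝ) 1 ⊆ ⋃ p : List ι × List ι, {s | s ∈ Icc (0:ℝ) 1 ∧ p.1.length = p.2.length ∧
      p.1 ≠ p.2 ∧ yw δ (fun i => k i * s) p.1 = yw δ (fun i => k i * s) p.2} := by
    intro s hs
    obtain ⟨u, v, h1, h2, h3⟩ := hc s hs
    exact mem_iUnion.2 ⟨(u, v), Ioc_subset_Icc_self hs, h1, h2, h3⟩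
  have := MeasureTheory.measure_mono_null sub m0
  simp at this

section
variable {δ β : ι → ℝ} (h : Par δ β)
  (hy : ∀ u v : List ι, u.length = v.length → u ≠ v → yw δ β u ≠ yw δ β v)
include h hy

lemma eq_of_eqlen {u v : List ι} (hl : u.length = v.length)
    (e : ∀ x ∈ Icc (0:ℝ) 1, wm (gen δ β) u x = wm (gen δ β) v x) : u = v := by
  by_contra hne
  have hu : u ≠ [] := by
    rintro rfl
    exact hne (List.length_eq_zero_iff.1 hl.symm).symm
  have hv : v ≠ [] := by
    rintro rfl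
    exact hne (List.length_eq_zero_iff.1 hl)
  exact hy u v hl hne ((h.good hu).overlap (h.good hv) e)

omit hy in
lemma prefix_case {u w : List ι}
    (e : ∀ x ∈ Icc (0:ℝ) 1, wm (gen δ β) u x = wm (gen δ β) (u ++ w) x) : w = [] := by
  by_contra hw
  have g := h.good hw
  have id1 : ∀ x ∈ Icc (0:ℝ) 1, wm (gen δ β) w x = x := by
    intro x hx
    have e1 := e x hx
    rw [wm_append] at e1
    by_cases hu : u = []
    · subst hu; exact e1.symm
    · exact ((h.good hu).inj hx (g.hmaps hx) e1).symm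
  have := g.lip (x := 1) (z := 0) (by norm_num) (by norm_num)
  rw [id1 1 (by norm_num), id1 0 (by norm_num)] at this
  norm_num at this

lemma no_overlap {u v : List ι}
    (e : ∀ x ∈ Icc (0:ℝ) 1, wm (gen δ β) u x = wm (gen δ β) v x) : u = v := by
  have e2 : u ++ v = v ++ u := by
    apply eq_of_eqlen h hy (by simp [add_comm])
    intro x hx
    rw [wm_append, wm_append]
    simp only [Function.comp]
    rw [e _ (h.form v hx).2, e x hx]
  rcases List.append_eq_append_iff.1 e2 with ⟨a, h1, -⟩ | ⟨a, h1, -⟩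
  · have : a = [] := prefix_case h (u := u) (by rw [← h1]; exact e)
    rw [h1, this, List.append_nil]
  · have : a = [] := prefix_case h (u := v) (by rw [← h1]; exact fun x hx => (e x hx).symm)
    rw [h1, this, List.append_nil]

lemma no_sub {u v : List ι} (hl : u.length = v.length) {g : ℝ → ℝ}
    (hg : AnalyticOnNhd ℝ g (Icc (0:ℝ) 1)) (hi : InjOn g (Icc (0:ℝ) 1)) {l t l' t' : ℝ}
    (e : ∀ x ∈ Icc (0:ℝ) 1, g (wm (gen δ β) u x) = l * g x + t)
    (e' : ∀ x ∈ Icc (0:ℝ) 1, g (wm (gen δ β) v x) = l' * g x + t') : u = v := by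
  by_contra hne
  have hu : u ≠ [] := by
    rintro rfl
    exact hne (List.length_eq_zero_iff.1 hl.symm).symm
  have hv : v ≠ [] := by
    rintro rfl
    exact hne (List.length_eq_zero_iff.1 hl)
  rcases (h.good hu).nosub (h.good hv) hg hi e e' with k | k
  · exact hy u v hl hne k
  · have e2 : u ++ v = v ++ u := by
      apply eq_of_eqlen h hy (by simp [add_comm])
      intro x hx
      rw [wm_append, wm_append]
      exact k x hx
    exact hne (List.append_inj_left e2 hl)

end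

end Pool.Agent.H.MP_6f21ce_an
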