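import Pool.Agent.H.MP_6f21ce_an.C

namespace Pool.Agent.H.MP_6f21ce_an

open Set Filter Topology

def dA : Fin 5 → ℤ := ![0, 1, 0, 0, 1]
def dB : Fin 5 → ℤ := ![0, 0, 1, 0, 1]
def dC : Fin 5 → ℤ := ![0, 0, 0, 1, 0]
noncomputable def del (η : ℝ) (i : Fin 5) : ℝ := η * (dA i + dB i * num 0 + dC i * num 1)
def kk : Fin 5 → ℝ := ![0, 0, 0, 0, 1]

def ev (D : Fin 5 → ℤ) : List (Fin 5) → ℤ
  | [] => 0
  | i :: w => D i + 2 * ev D w

lemma del_bd {η : ℝ} (h : 0 ≤ η) (i : Fin 5) : 0 ≤ del η i ∧ del η i ≤ 3 * η := by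
  have a0 := num_nonneg 0
  have a1 := num_nonneg 1
  have b0 := num_lt 0
  have b1 := num_lt 1
  have : 0 ≤ ((dA i : ℝ) + dB i * num 0 + dC i * num 1) ∧
      ((dA i : ℝ) + dB i * num 0 + dC i * num 1) ≤ 3 := by
    fin_cases i <;> simp [dA, dB, dC] <;> (try constructor) <;> linarith
  unfold del
  constructor
  · exact mul_nonneg h this.1
  · nlinarith [this.2]

lemma par {η : ℝ} (h : 0 ≤ η) (h1 : η ≤ 1 / 12) {s : ℝ} (hs : s ∈ Icc (0:ℝ) 1) :
    Par (del η) (fun i => kk i * s) := by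
  refine ⟨fun i => (del_bd h i).1, fun i => by linarith [(del_bd h i).2], fun i => ?_, fun i => ?_⟩
  · fin_cases i <;> simp [kk, hs.1]
  · fin_cases i <;> simp [kk, hs.2]

lemma mc_ev (η : ℝ) (β : Fin 5 → ℝ) (w : List (Fin 5)) (hw : ∀ i ∈ w, β i = 0) :
    mc (del η) β w = η * (ev dA w + ev dB w * num 0 + ev dC w * num 1) := by
  induction w with
  | nil => simp [ev]
  | cons i w ih =>
    have h1 := fun j hj => hw j (List.mem_cons_of_mem i hj)
    rw [mc_cons, ih h1, (mat_zero _ _ w h1).1]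
    simp only [ev, del]
    push_cast
    ring

lemma ev_inj (u : List (Fin 5)) : ∀ v : List (Fin 5), u.length = v.length → ev dA u = ev dA v →
    ev dB u = ev dB v → ev dC u = ev dC v → u = v := by
  induction u with
  | nil => intro v hl _ _ _; exact (List.length_eq_zero_iff.1 hl.symm).symm
  | cons i u ih =>
    intro v hl h1 h2 h3
    cases v with
    | nil => simp at hl
    | cons j v =>
      simp only [ev] at h1 h2 h3
      have hij : i = j := by
        fin_cases i <;> fin_cases j <;> simp [dA, dB, dC] at h1 h2 h3 ⊢ <;> omega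
      subst hij
      rw [ih v (by simpa using hl) (by omega) (by omega) (by omega)]

lemma h0 {η : ℝ} (h : 0 < η) (u v : List (Fin 5)) (hl : u.length = v.length)
    (e : mc (del η) (fun i => kk i * 0) u = mc (del η) (fun i => kk i * 0) v) : u = v := by
  rw [mc_ev _ _ _ (by simp), mc_ev _ _ _ (by simp)] at e
  have e1 := mul_left_cancel₀ h.ne' e
  obtain ⟨a, b, c⟩ := indep (ev dA u - ev dA v) (ev dB u - ev dB v) (ev dC u - ev dC v)
    (by push_cast; linarith)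
  exact ev_inj u v hl (by omega) (by omega) (by omega)

def bin (j : Fin 5) : ℕ → ℕ → List (Fin 5)
  | 0, _ => []
  | n + 1, A => (if A % 2 = 0 then 0 else j) :: bin j n (A / 2)

lemma bin_length (j : Fin 5) (n : ℕ) : ∀ A, (bin j n A).length = n := by
  induction n with
  | zero => intro A; rfl
  | succ n ih => intro A; simp [bin, ih]

lemma bin_mem (j : Fin 5) (n : ℕ) : ∀ A, ∀ i ∈ bin j n A, i = 0 ∨ i = j := by
  induction n with
  | zero => intro A i hi; simp [bin] at hi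
  | succ n ih =>
    intro A i hi
    simp only [bin, List.mem_cons] at hi
    rcases hi with rfl | hi
    · split_ifs <;> simp
    · exact ih _ i hi

lemma ev_bin (D : Fin 5 → ℤ) (hD : D 0 = 0) (j : Fin 5) (n : ℕ) :
    ∀ A, A < 2 ^ n → ev D (bin j n A) = D j * A := by
  induction n with
  | zero => intro A hA; have : A = 0 := by simpa using hA
            subst this; simp [bin, ev]
  | succ n ih =>
    intro A hA
    have h1 : A / 2 < 2 ^ n := by rw [pow_succ] at hA; omega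
    simp only [bin, ev]
    rw [ih _ h1]
    split_ifs with h
    · have : (A:ℤ) = 2 * ((A / 2 : ℕ) : ℤ) := by omega
      rw [hD]; linear_combination (-D j) * this
    · have : (A:ℤ) = 2 * ((A / 2 : ℕ) : ℤ) + 1 := by omega
      linear_combination (-D j) * this

lemma diff_le {δ β : Fin 5 → ℝ} (h : Par δ β) {u v : List (Fin 5)} (hl : u.length = v.length)
    (hu : ∀ i ∈ u, β i = 0) (hv : ∀ i ∈ v, β i = 0) {x : ℝ} (hx : x ∈ Icc (0:ℝ) 1) :
    |wm (gen δ β) u x - wm (gen δ β) v x| ≤ |mc δ β u - mc δ β v| := by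
  obtain ⟨u1, u2, u3⟩ := mat_zero δ β u hu
  obtain ⟨v1, v2, v3⟩ := mat_zero δ β v hv
  rw [(h.form u hx).1, (h.form v hx).1, u1, u2, u3, v1, v2, v3, hl]
  have a1 := mul_nonneg (h.basic u).2.2.1 hx.1
  have a2 := mul_nonneg (h.basic v).2.2.1 hx.1
  have a3 : (1:ℝ) ≤ 2 ^ v.length := one_le_pow₀ (by norm_num)
  have b1 : 1 ≤ mc δ β u * x + 2 ^ v.length := by linarith
  have b2 : 1 ≤ mc δ β v * x + 2 ^ v.length := by linarith
  have b3 : 1 ≤ (mc δ β u * x + 2 ^ v.length) * (mc δ β v * x + 2 ^ v.length) := by nlinarith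
  rw [div_sub_div _ _ (by linarith) (by linarith), abs_div, abs_of_pos (by linarith : 0 <
    (mc δ β u * x + 2 ^ v.length) * (mc δ β v * x + 2 ^ v.length))]
  have e : (1 * x + 0) * (mc δ β v * x + 2 ^ v.length) - (mc δ β u * x + 2 ^ v.length) * (1 * x + 0)
      = -(x ^ 2) * (mc δ β u - mc δ β v) := by ring
  have x2 : x ^ 2 ≤ 1 := by nlinarith [hx.1, hx.2]
  rw [e, abs_mul, abs_neg, abs_of_nonneg (sq_nonneg x)]
  refine (div_le_self (by positivity) b3).trans ?_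
  exact mul_le_of_le_one_left (abs_nonneg _) x2

lemma close {η : ℝ} (h : 0 < η) (h1 : η ≤ 1 / 12) {s : ℝ} (hs : s ∈ Icc (0:ℝ) 1) (K n : ℕ)
    (hn : K.factorial < n) : ∃ u v : List (Fin 5), u.length = n ∧ v.length = n ∧ u ≠ v ∧
      ∃ r : ℝ, 0 ≤ r ∧ r < 1 / 2 ^ (K * n) ∧ ∀ x ∈ Icc (0:ℝ) 1,
      |wm (gen (del η) (fun i => kk i * s)) u x - wm (gen (del η) (fun i => kk i * s)) v x| ≤ r := by
  obtain ⟨r, e, A, hr, he, hA, hc⟩ := approx K n hn
  have he2 : 2 ^ e < 2 ^ n := Nat.pow_lt_pow_right (by norm_num) he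
  obtain ⟨j, hj1, hj2, hj3, hj4⟩ : ∃ j : Fin 5, kk j = 0 ∧ dA j = 0 ∧ dB j + dC j = 1 ∧
      dB j * num 0 + dC j * num 1 = num r := by
    interval_cases r
    · exact ⟨2, by simp [kk, dA, dB, dC]⟩
    · exact ⟨3, by simp [kk, dA, dB, dC]⟩
  have hu : ∀ i ∈ bin j n (2 ^ e), kk i * s = 0 := by
    intro i hi
    rcases bin_mem _ _ _ i hi with rfl | rfl
    · simp [kk]
    · simp [hj1]
  have hv : ∀ i ∈ bin 1 n A, kk i * s = 0 := by
    intro i hi
    rcases bin_mem _ _ _ i hi with rfl | rfl <;> simp [kk]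
  have uA := ev_bin dA rfl j n _ he2
  have uB := ev_bin dB rfl j n _ he2
  have uC := ev_bin dC rfl j n _ he2
  have vA := ev_bin dA rfl 1 n _ hA
  have vB := ev_bin dB rfl 1 n _ hA
  have vC := ev_bin dC rfl 1 n _ hA
  have q1 : dA 1 = 1 := rfl
  have q2 : dB 1 = 0 := rfl
  have q3 : dC 1 = 0 := rfl
  refine ⟨bin j n (2 ^ e), bin 1 n A, bin_length _ _ _, bin_length _ _ _, ?_,
    |2 ^ e * num r - A|, abs_nonneg _, hc, fun x hx => ?_⟩
  · intro hh
    rw [hh, vB, q2] at uB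
    rw [hh, vC, q3] at uC
    have : (dB j + dC j) * ((2 ^ e : ℕ) : ℤ) = 0 := by linear_combination -uB - uC
    rw [hj3] at this
    simp at this
  · refine (diff_le (par h.le h1 hs) (by rw [bin_length, bin_length]) hu hv hx).trans ?_
    rw [mc_ev _ _ _ hu, mc_ev _ _ _ hv, uA, uB, uC, vA, vB, vC, q1, q2, q3, hj2, ← hj4]
    push_cast
    have : η * (0 * 2 ^ e + dB j * 2 ^ e * num 0 + dC j * 2 ^ e * num 1)
      - η * (1 * A + 0 * A * num 0 + 0 * A * num 1)
      = η * (2 ^ e * (dB j * num 0 + dC j * num 1) - A) := by ring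
    rw [this, abs_mul, abs_of_pos h]
    exact mul_le_of_le_one_left (abs_nonneg _) (by linarith)

def IC : Set ℂ := Complex.ofReal '' Icc (0:ℝ) 1

lemma near {z : ℂ} {r : ℝ} (h : Metric.infDist z IC ≤ r) :
    ∃ x ∈ Icc (0:ℝ) 1, ‖z - x‖ ≤ r := by
  have hc : IsCompact IC := isCompact_Icc.image Complex.continuous_ofReal
  obtain ⟨y, ⟨x, hx, rfl⟩, e⟩ := hc.exists_infDist_eq_dist ⟨0, 0, by norm_num, rfl⟩ z
  exact ⟨x, hx, by rw [← dist_eq_norm, ← e]; exact h⟩

lemma den_bd {ε d : ℝ} (hε : 0 < ε) (d0 : 0 ≤ d) (d1 : d * (1 + 2 * ε) ≤ 1 / 4) {z : ℂ}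
    (h : Metric.infDist z IC ≤ 2 * ε) : 7 / 4 ≤ ‖(d:ℂ) * z + 2‖ := by
  obtain ⟨x, hx, e⟩ := near h
  have h1 : ‖z‖ ≤ 1 + 2 * ε := by
    have : ‖z‖ ≤ ‖z - x‖ + ‖(x:ℂ)‖ := by simpa using norm_add_le (z - x) x
    rw [Complex.norm_real, Real.norm_of_nonneg hx.1] at this
    linarith [hx.2]
  have h2 : ‖(d:ℂ) * z‖ ≤ 1 / 4 := by
    rw [norm_mul, Complex.norm_real, Real.norm_of_nonneg d0]
    exact (mul_le_mul_of_nonneg_left h1 d0).trans d1
  have h3 : ‖(2:ℂ)‖ ≤ ‖(d:ℂ) * z + 2‖ + ‖(d:ℂ) * z‖ := by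
    simpa using norm_sub_le ((d:ℂ) * z + 2) ((d:ℂ) * z)
  simp only [Complex.norm_ofNat] at h3
  linarith

lemma cplx {ε d b : ℝ} (hε : 0 < ε) (d0 : 0 ≤ d) (d1 : d * (1 + 2 * ε) ≤ 1 / 4) (b0 : 0 ≤ b)
    (b1 : b ≤ 1) :
    AnalyticOnNhd ℂ (fun z : ℂ => (z + b) / (d * z + 2)) {z | Metric.infDist z IC < 2 * ε} ∧
    MapsTo (fun z : ℂ => (z + b) / (d * z + 2)) (closure {z | Metric.infDist z IC < ε})
      {z | Metric.infDist z IC < ε} ∧
    ∀ z ∈ closure {z | Metric.infDist z IC < ε},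
      0 < ‖deriv (fun z : ℂ => (z + b) / (d * z + 2)) z‖ ∧
      ‖deriv (fun z : ℂ => (z + b) / (d * z + 2)) z‖ < 1 := by
  have cl : ∀ z ∈ closure {z | Metric.infDist z IC < ε}, Metric.infDist z IC ≤ ε := fun z hz =>
    closure_lt_subset_le (Metric.continuous_infDist_pt IC) continuous_const hz
  have d2 : d ≤ 1 / 4 := by nlinarith
  have q0 : 0 ≤ b * d := mul_nonneg b0 d0
  have q1 : b * d ≤ 1 := by nlinarith
  have nd : ‖(2:ℂ) - b * d‖ = 2 - b * d := by
    rw [show (2:ℂ) - b * d = ((2 - b * d : ℝ) : ℂ) by push_cast; ring, Complex.norm_real,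
      Real.norm_of_nonneg (by linarith)]
  refine ⟨fun z hz => ?_, fun z hz => ?_, fun z hz => ?_⟩
  · have := den_bd hε d0 d1 (le_of_lt hz)
    refine AnalyticAt.div (by fun_prop) (by fun_prop) fun h => ?_
    rw [h, norm_zero] at this; norm_num at this
  · have h1 := cl z hz
    obtain ⟨x, hx, e⟩ := near h1
    have h2 := den_bd hε d0 d1 (z := z) (by linarith)
    have h3 := den_bd hε d0 d1 (z := x) (by
      rw [Metric.infDist_zero_of_mem (show (x:ℂ) ∈ IC from ⟨x, hx, rfl⟩)]; linarith)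
    have n2 : (d:ℂ) * z + 2 ≠ 0 := fun h => by rw [h, norm_zero] at h2; norm_num at h2
    have n3 : (d:ℂ) * x + 2 ≠ 0 := fun h => by rw [h, norm_zero] at h3; norm_num at h3
    have m : ((x:ℂ) + b) / (d * x + 2) ∈ IC := by
      refine ⟨(x + b) / (d * x + 2), ⟨?_, ?_⟩, by push_cast; rfl⟩
      · have := hx.1; positivity
      · have := mul_nonneg d0 hx.1
        rw [div_le_one (by linarith)]; linarith [hx.2]
    refine lt_of_le_of_lt (Metric.infDist_le_dist_of_mem m) ?_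
    have e1 : (z + b) / (d * z + 2) - ((x:ℂ) + b) / (d * x + 2)
        = (2 - b * d) * (z - x) / ((d * z + 2) * (d * x + 2)) := by
      rw [div_sub_div _ _ n2 n3]; congr 1; ring
    have p : 3 ≤ ‖(d:ℂ) * z + 2‖ * ‖(d:ℂ) * x + 2‖ := by nlinarith
    rw [dist_eq_norm, e1, norm_div, norm_mul, norm_mul, nd, div_lt_iff₀ (by linarith)]
    have := norm_nonneg (z - x)
    nlinarith
  · have h1 := cl z hz
    have h2 := den_bd hε d0 d1 (z := z) (by linarith)
    have n2 : (d:ℂ) * z + 2 ≠ 0 := fun h => by rw [h, norm_zero] at h2; norm_num at h2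
    have u1 : HasDerivAt (fun z : ℂ => z + b) 1 z := (hasDerivAt_id z).add_const _
    have u2 : HasDerivAt (fun z : ℂ => d * z + 2) d z := by
      simpa using ((hasDerivAt_id z).const_mul (d:ℂ)).add_const 2
    have u3 : HasDerivAt (fun z : ℂ => (z + b) / (d * z + 2)) _ z := u1.div u2 n2
    have e1 : 1 * ((d:ℂ) * z + 2) - (z + b) * d = 2 - b * d := by ring
    rw [u3.deriv, e1, norm_div, norm_pow, nd]
    have p : 3 ≤ ‖(d:ℂ) * z + 2‖ ^ 2 := by nlinarith
    exact ⟨div_pos (by linarith) (by linarith), (div_lt_one (by linarith)).2 (by linarith)⟩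

end Pool.Agent.H.MP_6f21ce_an
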